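import Pool.Agent.H5.GP.E2b
import Pool.Agent.H26.GH.G2
import Pool.Agent.H14.GP.Ra

/-!
# MP_103a5c_GP: the three inputs of `Main`: `blockH_EE`, `WW_bb_EE`, `shortPoly_AR`
-/

open MeasureTheory Set Filter Topology
open scoped Real ContDiff ComplexConjugate

namespace Pool.Agent.H5.GP

open Pool.Agent.H6 (WW SS cosT TestFn Nice Inputs)
open Pool.Agent.H14.GP Pool.Agent.H26.GH

theorem blockH_EE {ι : Type*} [Countable ι] {γ w : ι → ℝ} {F : ℝ → Finset ι} {CR : ℝ} (I : Inputs γ w F CR)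
    {v : ℝ → ℝ} (hv : Wgt v) {ψ : ℝ → ℝ} (hψ : Nice ψ) {s0 s1 : ℝ} (h0 : 0 < s0) (h01 : s0 < s1) (hs1 : s1 < 1) :
    ∃ ψl : ℝ → ℝ, TestFn s1 ψl ∧ (∀ ξ, |ξ| ≤ s0 → cosT ψl ξ = cosT ψ ξ) ∧ (∀ ξ, |cosT ψl ξ| ≤ |cosT ψ ξ|) ∧
      ∀ (a : ℝ → ℝ → ℝ) (ε B : ℝ), 0 < ε → ShortPoly s0 ε a →
        (∀ᶠ T in atTop, EE v T (fun t => a T t ^ 2) ≤ B) →
        Tendsto (fun T => EE v T (fun t => a T t * SS γ w ψ (Real.log T) t)
          - (cosT ψ 0 * EE v T (a T) - EE v T (fun t => a T t * WW ψl (Real.log T) t))) atTop (𝓝 0) := by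
  obtain ⟨ψl, h1, h2, h3, h4⟩ := blockHv I hv hψ h0 h01 hs1
  obtain ⟨V, β, hV0, hβ, hEE⟩ := exists_EE_le hv
  refine ⟨ψl, h1, h2, h3, fun a ε B hε ha hB => h4 a ε (V * β + B) hε ha ?_⟩
  filter_upwards [ha, hB, eventually_gt_atTop 0] with T hTT hBT hT
  obtain ⟨J, c, lam, g1, -, -⟩ := hTT
  have hac : Continuous (a T) := by
    have : a T = trig J c lam := by ext t; exact g1 t
    rw [this]
    exact continuous_trig J c lam
  have g2 : EE v T (fun t => |a T t|) ≤ EE v T (fun t => 1 + a T t ^ 2) := by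
    refine EE_mono hv hT (by fun_prop) (by fun_prop) fun t _ => ?_
    have := sq_nonneg (|a T t| - 1)
    rw [sub_sq, sq_abs] at this
    have h := abs_nonneg (a T t)
    nlinarith
  have g3 : EE v T (fun t => 1 + a T t ^ 2) = EE v T (fun _ => 1) + EE v T (fun t => a T t ^ 2) :=
    EE_add hv hT (f := fun _ => (1 : ℝ)) (g := fun t => a T t ^ 2) (by fun_prop) (by fun_prop)
  have g4 := hEE T hT (fun _ => 1) (by fun_prop) (fun _ => by norm_num)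
  rw [intervalIntegral.integral_const, sub_zero, smul_eq_mul, mul_one] at g4
  have g5 : V * (1 / T * (β * T)) = V * β := by
    field_simp
  linarith

/-- E2 -/
theorem WW_bb_EE {v : ℝ → ℝ} (hv : Wgt v) {s : ℝ} {φ : ℝ → ℝ} (hφ : TestFn s φ) (hs : 0 < s) (hs1 : s < 1)
    {a : ℝ → ℝ → ℝ} (hac : ∀ᶠ T in atTop, Continuous (a T)) {B : ℝ} (hB : ∀ᶠ T in atTop, EE v T (fun t => a T t ^ 2) ≤ B) :
    Tendsto (fun T => EE v T (fun t => a T t * WW φ (Real.log T) t)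
      - EE v T (fun t => a T t * (2 * (ev t (bb (fun x => x * cosT φ x) T)).re))) atTop (𝓝 0) :=
  EE_WW hv hs hs1 hφ hac hB

theorem shortPoly_mono {s0 s1 ε : ℝ} {a : ℝ → ℝ → ℝ} (h : ShortPoly s0 ε a) (h01 : s0 ≤ s1) :
    ShortPoly s1 ε a := by
  unfold ShortPoly at h ⊢
  filter_upwards [h, eventually_ge_atTop (1 : ℝ)] with T hT hT1
  obtain ⟨J, c, lam, g1, g2, g3⟩ := hT
  exact ⟨J, c, lam, g1, fun j hj => (g2 j hj).trans
    (mul_le_mul_of_nonneg_right h01 (Real.log_nonneg hT1)), g3⟩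

/-- E3 -/
theorem shortPoly_AR {M : ℕ} {θ : ℝ} {G : ℕ → ℝ → ℝ} (hG : Cells M θ G) (c : ℝ) (R : ℕ) (f : ℕ → ℝ) {s0 : ℝ} (hs0 : 2 * θ < s0) (hs1 : s0 < 1) :
    ∃ ε : ℝ, 0 < ε ∧ ShortPoly s0 ε (fun T t => AR c R M f G T t ^ 2) := by
  have hM := hG.M_pos
  refine ⟨1 - 2 * θ, by linarith, ?_⟩
  exact shortPoly_mono (shortPoly_sq hG (P := Amp c R M f)
    ((deg2_iff _ _).2 (deg_Amp c R (by omega) f))) hs0.le

end Pool.Agent.H5.GP
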