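import Pool.Agent.H5.GP.E2a
import Pool.Agent.H26.GH.F
import Pool.Agent.H4.MeanValue
import Pool.Agent.H6.Away

/-!
# MP_103a5c_GP, E2, part b: the prime powers in `WW` are negligible in mean square
-/

open MeasureTheory Set Filter Topology
open scoped Real ContDiff ComplexConjugate

namespace Pool.Agent.H5.GP

open Pool.Agent.H6 (WW cosT TestFn WW_eq_sum bb_eq_zero)
open Pool.Agent.H14.GP Pool.Agent.H26.GH

theorem continuous_rr (s : ℝ) (ψ : ℝ → ℝ) (T : ℝ) : Continuous (rr s ψ T) := by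
  unfold rr
  fun_prop

theorem continuous_ev_bb_re (G : ℝ → ℝ) (T : ℝ) : Continuous (fun t => (ev t (bb G T)).re) := by
  simp_rw [ev_bb_re]
  fun_prop

theorem sum_bb_sq_le {ψ : ℝ → ℝ} {B : ℝ} (hB : ∀ ξ, |cosT ψ ξ| ≤ B) {K : ℝ}
    (hK : ∀ N : ℕ, ∑ n ∈ npr N, ArithmeticFunction.vonMangoldt n ^ 2 / (n : ℝ) ≤ K) (L : ℝ) (N : ℕ) :
    ∑ n ∈ npr N, Pool.Agent.H6.bb ψ L n ^ 2 ≤ B ^ 2 * K := by
  refine le_trans ?_ (mul_le_mul_of_nonneg_left (hK N) (sq_nonneg B))
  rw [Finset.mul_sum]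
  refine Finset.sum_le_sum fun n hn => ?_
  have hn2 : 2 ≤ n := by
    unfold npr at hn
    rw [Finset.mem_filter, Finset.mem_Icc] at hn
    exact hn.1.1
  have hn0 : (0 : ℝ) < n := by positivity
  unfold Pool.Agent.H6.bb
  have e : ((n : ℝ) ^ (-(1 / 2) : ℝ)) ^ 2 = 1 / (n : ℝ) := by
    rw [← Real.rpow_natCast ((n : ℝ) ^ (-(1 / 2) : ℝ)) 2, ← Real.rpow_mul hn0.le,
      show (-(1 / 2) : ℝ) * ((2 : ℕ) : ℝ) = -1 by norm_num, Real.rpow_neg_one, one_div]
  rw [mul_pow, mul_pow, e]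
  have h1 : cosT ψ (Real.log n / L) ^ 2 ≤ B ^ 2 := by
    rw [← sq_abs (cosT ψ (Real.log n / L))]
    exact pow_le_pow_left₀ (abs_nonneg _) (hB _) 2
  have h2 : 0 ≤ ArithmeticFunction.vonMangoldt n ^ 2 * (1 / (n : ℝ)) := by positivity
  calc _ ≤ ArithmeticFunction.vonMangoldt n ^ 2 * (1 / (n : ℝ)) * B ^ 2 :=
        mul_le_mul_of_nonneg_left h1 h2
    _ = _ := by ring

theorem exists_EE_le {v : ℝ → ℝ} (hv : Wgt v) : ∃ V β : ℝ, 0 ≤ V ∧ 0 < β ∧ ∀ T : ℝ, 0 < T →
    ∀ f : ℝ → ℝ, Continuous f → (∀ t, 0 ≤ f t) →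
    EE v T f ≤ V * ((1 / T) * ∫ t in (0 : ℝ)..(β * T), f t) := by
  obtain ⟨V, hV⟩ := (wcs hv).exists_bound_of_continuous (wcont hv)
  obtain ⟨a, β, ha, hab, hsupp⟩ := hv.supp
  have hV0 : 0 ≤ V := (norm_nonneg _).trans (hV 0)
  have hβ : 0 < β := ha.trans hab
  refine ⟨V, β, hV0, hβ, fun T hT f hf hf0 => ?_⟩
  have hcs : ∀ t, t ∉ Ioc 0 (β * T) → v (t / T) * f t = 0 := by
    intro t ht
    have : v (t / T) = 0 := by
      apply hsupp
      rw [mem_Icc, le_div_iff₀ hT, div_le_iff₀ hT]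
      rintro ⟨g1, g2⟩
      exact ht ⟨lt_of_lt_of_le (by positivity) g1, g2⟩
    rw [this, zero_mul]
  have hI : ∫ t, v (t / T) * f t = ∫ t in Ioc 0 (β * T), v (t / T) * f t := by
    symm
    apply setIntegral_eq_integral_of_forall_compl_eq_zero
    exact hcs
  unfold EE
  have hbT : 0 ≤ β * T := by positivity
  rw [hI, intervalIntegral.integral_of_le hbT]
  rw [show V * (1 / T * ∫ t in Ioc 0 (β * T), f t) = 1 / T * (V * ∫ t in Ioc 0 (β * T), f t) by ring]
  have hT1 : 0 ≤ 1 / T := by positivity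
  refine mul_le_mul_of_nonneg_left ?_ hT1
  rw [← integral_const_mul]
  have hi : Integrable (fun t => V * f t) (volume.restrict (Ioc 0 (β * T))) :=
    (continuous_const.mul hf).integrableOn_Ioc
  refine integral_mono (wint hv hT hf).integrableOn hi fun t => ?_
  refine mul_le_mul_of_nonneg_right ?_ (hf0 t)
  exact (le_abs_self _).trans (hV _)

theorem tendsto_EE_rr_sq {v : ℝ → ℝ} (hv : Wgt v) {s : ℝ} (hs : 0 < s) (hs1 : s < 1) {ψ : ℝ → ℝ}
    (hψ : TestFn s ψ) : Tendsto (fun T => EE v T (fun t => rr s ψ T t ^ 2)) atTop (𝓝 0) := by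
  obtain ⟨V, β, hV0, hβ, hEE⟩ := exists_EE_le hv
  obtain ⟨B, hB0, hB⟩ := hψ.exists_bound_cosT
  obtain ⟨K, hK0, hK⟩ := exists_npr
  have hlog := Real.tendsto_log_atTop
  have hbd : ∀ᶠ T : ℝ in atTop, EE v T (fun t => rr s ψ T t ^ 2) ≤
      V * (4 * (B ^ 2 * K)) * (β / 2 * (1 / Real.log T) ^ 2 + 6 * T ^ (-(1 - s))) := by
    filter_upwards [eventually_ge_atTop (1 : ℝ), hlog.eventually_ge_atTop 1] with T hT1 hL1
    have hT : 0 < T := by linarith
    have hL : 0 < Real.log T := by linarith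
    refine (hEE T hT (fun t => rr s ψ T t ^ 2) ((continuous_rr s ψ T).pow 2)
      (fun t => sq_nonneg _)).trans ?_
    rw [mul_assoc V]
    refine mul_le_mul_of_nonneg_left ?_ hV0
    set N := ⌊Real.exp (s * Real.log T)⌋₊ with hN
    have hS : ∀ n ∈ npr N, 2 ≤ n ∧ n ≤ N := fun n hn => by
      unfold npr at hn
      rw [Finset.mem_filter, Finset.mem_Icc] at hn
      exact hn.1
    have h1 := (abs_le.1 (Pool.Agent.H4.meanValue_cos (npr N) hS (Pool.Agent.H6.bb ψ (Real.log T))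
      (β * T))).2
    have h2 := sum_bb_sq_le hB hK (Real.log T) N
    have h3 : (N : ℝ) ≤ T ^ s := by
      refine (Nat.floor_le (Real.exp_pos _).le).trans (le_of_eq ?_)
      rw [Real.rpow_def_of_pos hT, mul_comm]
    have h4 : (N : ℝ) * (1 + Real.log N) ≤ T ^ s * (2 * Real.log T) := by
      have h5 : Real.log N ≤ Real.log T := by
        rcases Nat.eq_zero_or_pos N with h0 | h0
        · rw [h0, Nat.cast_zero, Real.log_zero]
          exact hL.le
        · refine Real.log_le_log (by exact_mod_cast h0) (h3.trans ?_)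
          calc T ^ s ≤ T ^ (1 : ℝ) := Real.rpow_le_rpow_of_exponent_le hT1 hs1.le
            _ = T := Real.rpow_one T
      refine mul_le_mul h3 (by linarith) ?_ (by positivity)
      have := Real.log_natCast_nonneg N
      linarith
    have hSS0 : 0 ≤ ∑ n ∈ npr N, Pool.Agent.H6.bb ψ (Real.log T) n ^ 2 :=
      Finset.sum_nonneg fun n _ => sq_nonneg _
    have h6 : ∫ t in (0 : ℝ)..(β * T), rr s ψ T t ^ 2 = (2 / Real.log T) ^ 2 *
        ∫ t in (0 : ℝ)..(β * T), (∑ n ∈ npr N, Pool.Agent.H6.bb ψ (Real.log T) n *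
          Real.cos (t * Real.log n)) ^ 2 := by
      rw [← intervalIntegral.integral_const_mul]
      refine intervalIntegral.integral_congr fun t _ => ?_
      unfold rr
      rw [mul_pow]
    have h7 : ∫ t in (0 : ℝ)..(β * T), (∑ n ∈ npr N, Pool.Agent.H6.bb ψ (Real.log T) n *
          Real.cos (t * Real.log n)) ^ 2 ≤ (β * T / 2 + 3 * (T ^ s * (2 * Real.log T))) * (B ^ 2 * K) := by
      have h8 : (β * T / 2 + 3 * ((N : ℝ) * (1 + Real.log N))) *
          ∑ n ∈ npr N, Pool.Agent.H6.bb ψ (Real.log T) n ^ 2 ≤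
          (β * T / 2 + 3 * (T ^ s * (2 * Real.log T))) * (B ^ 2 * K) := by
        refine mul_le_mul (by linarith) h2 hSS0 (by positivity)
      linarith
    rw [h6]
    have h9 : (1 : ℝ) / T * ((2 / Real.log T) ^ 2 *
        ∫ t in (0 : ℝ)..(β * T), (∑ n ∈ npr N, Pool.Agent.H6.bb ψ (Real.log T) n *
          Real.cos (t * Real.log n)) ^ 2) ≤ 1 / T * ((2 / Real.log T) ^ 2 *
          ((β * T / 2 + 3 * (T ^ s * (2 * Real.log T))) * (B ^ 2 * K))) := by
      gcongr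
    refine h9.trans ?_
    have h10 : T ^ (-(1 - s)) = T ^ s / T := by
      rw [show -(1 - s) = s - 1 by ring, Real.rpow_sub hT, Real.rpow_one]
    rw [h10]
    have h11 : 1 / T * ((2 / Real.log T) ^ 2 * ((β * T / 2 + 3 * (T ^ s * (2 * Real.log T))) * (B ^ 2 * K)))
        = 4 * (B ^ 2 * K) * (β / 2 * (1 / Real.log T) ^ 2 + 6 * (T ^ s / T) * (1 / Real.log T)) := by
      field_simp
      ring
    rw [h11]
    have h12 : 6 * (T ^ s / T) * (1 / Real.log T) ≤ 6 * (T ^ s / T) := by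
      have : 1 / Real.log T ≤ 1 := by
        rw [div_le_one hL]
        exact hL1
      have h13 : 0 ≤ 6 * (T ^ s / T) := by positivity
      nlinarith
    refine mul_le_mul_of_nonneg_left (by linarith) (by positivity)
  have hlim : Tendsto (fun T : ℝ => V * (4 * (B ^ 2 * K)) * (β / 2 * (1 / Real.log T) ^ 2 +
      6 * T ^ (-(1 - s)))) atTop (𝓝 0) := by
    have h1 : Tendsto (fun T : ℝ => T ^ (-(1 - s))) atTop (𝓝 0) := tendsto_rpow_neg_atTop (by linarith)
    have h2 : Tendsto (fun T : ℝ => 1 / Real.log T) atTop (𝓝 0) := hlog.const_div_atTop 1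
    have h3 := (((h2.pow 2).const_mul (β / 2)).add (h1.const_mul 6)).const_mul (V * (4 * (B ^ 2 * K)))
    simpa using h3
  refine squeeze_zero' ?_ hbd hlim
  filter_upwards [eventually_gt_atTop 0] with T hT
  exact EE_nonneg' hv hT fun t => sq_nonneg _

/-- the prime powers are negligible against functions bounded in mean square -/
theorem tendsto_EE_mul_rr {v : ℝ → ℝ} (hv : Wgt v) {s : ℝ} (hs : 0 < s) (hs1 : s < 1) {ψ : ℝ → ℝ}
    (hψ : TestFn s ψ) {a : ℝ → ℝ → ℝ} (ha : ∀ᶠ T in atTop, Continuous (a T)) {B : ℝ}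
    (hB : ∀ᶠ T in atTop, EE v T (fun t => a T t ^ 2) ≤ B) :
    Tendsto (fun T => EE v T (fun t => a T t * rr s ψ T t)) atTop (𝓝 0) := by
  have h0 := tendsto_EE_rr_sq hv hs hs1 hψ
  have h1 : Tendsto (fun T => Real.sqrt (B * EE v T (fun t => rr s ψ T t ^ 2))) atTop (𝓝 0) := by
    have h2 := (h0.const_mul B).sqrt
    simpa using h2
  refine squeeze_zero_norm' ?_ h1
  filter_upwards [ha, hB, eventually_gt_atTop 0] with T hac hBT hT
  rw [Real.norm_eq_abs]
  refine Real.abs_le_sqrt ?_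
  refine (EE_mul_sq_le hv hT hac (continuous_rr s ψ T)).trans ?_
  exact mul_le_mul_of_nonneg_right hBT (EE_nonneg' hv hT fun t => sq_nonneg _)

/-- **E2**: the mean of `a * WW ψ (log T)` is that of `a * 2 Re b_H`, `H x = x * cosT ψ x`. -/
theorem EE_WW {v : ℝ → ℝ} (hv : Wgt v) {s : ℝ} (hs : 0 < s) (hs1 : s < 1) {ψ : ℝ → ℝ}
    (hψ : TestFn s ψ) {a : ℝ → ℝ → ℝ} (ha : ∀ᶠ T in atTop, Continuous (a T)) {B : ℝ}
    (hB : ∀ᶠ T in atTop, EE v T (fun t => a T t ^ 2) ≤ B) :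
    Tendsto (fun T => EE v T (fun t => a T t * WW ψ (Real.log T) t) -
      EE v T (fun t => a T t * (2 * (ev t (bb (fun x => x * cosT ψ x) T)).re))) atTop (𝓝 0) := by
  have h0 := tendsto_EE_mul_rr hv hs hs1 hψ ha hB
  refine h0.congr' ?_
  filter_upwards [ha, eventually_gt_atTop 1] with T hac hT
  have e : (fun t => a T t * WW ψ (Real.log T) t) = fun t =>
      a T t * rr s ψ T t + a T t * (2 * (ev t (bb (fun x => x * cosT ψ x) T)).re) := by
    ext t
    rw [WW_eq_rr hψ hs1 hT]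
    ring
  have h2 := EE_add hv (T := T) (by linarith) (f := fun t => a T t * rr s ψ T t)
    (g := fun t => a T t * (2 * (ev t (bb (fun x => x * cosT ψ x) T)).re))
    (hac.mul (continuous_rr s ψ T)) (hac.mul (continuous_const.mul (continuous_ev_bb_re _ _)))
  rw [e, h2, add_sub_cancel_right]

end Pool.Agent.H5.GP
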