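import Pool.Agent.H14.GP.Defs
import Pool.Agent.H6.Glue

/-!
# MP_103a5c_GP, E2, part a: the prime powers in `WW`
-/

open MeasureTheory Set Filter Topology
open scoped Real ContDiff ComplexConjugate

namespace Pool.Agent.H5.GP

open Pool.Agent.H6 (WW cosT TestFn WW_eq_sum bb_eq_zero)
open Pool.Agent.H14.GP

theorem chi_re {t : ℝ} {n : ℕ} (hn : n ≠ 0) : (chi t n).re = Real.cos (t * Real.log n) := by
  change (if n = 0 then (0 : ℂ) else Complex.exp (-((t * Real.log n : ℝ) : ℂ) * Complex.I)).re = _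
  rw [if_neg hn, ← Complex.ofReal_neg, Complex.exp_ofReal_mul_I_re, Real.cos_neg]

theorem ev_bb_re (G : ℝ → ℝ) (T t : ℝ) : (ev t (bb G T)).re =
    ∑ p ∈ (Finset.range (⌊T⌋₊ + 1)).filter Nat.Prime,
      G (Real.log p / Real.log T) * (p : ℝ) ^ (-(1 / 2) : ℝ) * Real.cos (t * Real.log p) := by
  unfold ev bb
  rw [map_sum, Complex.re_sum]
  refine Finset.sum_congr rfl fun p hp => ?_
  rw [Finset.mem_filter] at hp
  rw [MonoidAlgebra.lift_single, Complex.smul_re, chi_re hp.2.ne_zero, smul_eq_mul]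

/-- the integers `2 ≤ n ≤ N` which are not primes -/
noncomputable def npr (N : ℕ) : Finset ℕ := (Finset.Icc 2 N).filter (fun n => ¬ n.Prime)

/-- the contribution of the prime powers -/
noncomputable def rr (s : ℝ) (ψ : ℝ → ℝ) (T t : ℝ) : ℝ :=
  (2 / Real.log T) * ∑ n ∈ npr ⌊Real.exp (s * Real.log T)⌋₊,
    Pool.Agent.H6.bb ψ (Real.log T) n * Real.cos (t * Real.log n)

theorem WW_eq_rr {s : ℝ} {ψ : ℝ → ℝ} (hψ : TestFn s ψ) (hs1 : s < 1) {T : ℝ} (hT : 1 < T) (t : ℝ) :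
    WW ψ (Real.log T) t = 2 * (ev t (bb (fun x => x * cosT ψ x) T)).re + rr s ψ T t := by
  have hL : 0 < Real.log T := Real.log_pos hT
  rw [WW_eq_sum hψ hL, ev_bb_re, rr, npr,
    ← Finset.sum_filter_add_sum_filter_not (Finset.Icc 2 ⌊Real.exp (s * Real.log T)⌋₊) Nat.Prime,
    mul_add]
  congr 1
  have e1 : ∑ p ∈ (Finset.Icc 2 ⌊Real.exp (s * Real.log T)⌋₊).filter Nat.Prime,
      Pool.Agent.H6.bb ψ (Real.log T) p * Real.cos (t * Real.log p) =
      ∑ p ∈ (Finset.range (⌊T⌋₊ + 1)).filter Nat.Prime,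
      Pool.Agent.H6.bb ψ (Real.log T) p * Real.cos (t * Real.log p) := by
    refine Finset.sum_subset ?_ ?_
    · intro p hp
      rw [Finset.mem_filter, Finset.mem_Icc] at hp
      rw [Finset.mem_filter, Finset.mem_range]
      refine ⟨?_, hp.2⟩
      have h1 : Real.exp (s * Real.log T) ≤ T := by
        calc Real.exp (s * Real.log T) ≤ Real.exp (Real.log T) := by
              rw [Real.exp_le_exp]
              nlinarith
          _ = T := Real.exp_log (by linarith)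
      have h2 := Nat.floor_le_floor h1
      omega
    · intro p hp hn
      rw [Finset.mem_filter] at hp
      have h3 : p ∉ Finset.Icc 2 ⌊Real.exp (s * Real.log T)⌋₊ := fun h =>
        hn (Finset.mem_filter.2 ⟨h, hp.2⟩)
      rw [bb_eq_zero hψ hL h3, zero_mul]
  rw [e1, Finset.mul_sum, Finset.mul_sum]
  refine Finset.sum_congr rfl fun p hp => ?_
  rw [Finset.mem_filter] at hp
  unfold Pool.Agent.H6.bb
  rw [ArithmeticFunction.vonMangoldt_apply_prime hp.2]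
  field_simp

/-- nonprime prime powers are squares of smaller numbers, up to a small factor -/
theorem npr_cover {N n : ℕ} (hn : n ∈ npr N) (h : ArithmeticFunction.vonMangoldt n ≠ 0) :
    n ∈ (Finset.Icc 2 N).image (fun m => m ^ 2) ∪
      (Finset.Icc 2 N).image (fun m => m ^ 2 * m.minFac) := by
  unfold npr at hn
  rw [Finset.mem_filter, Finset.mem_Icc] at hn
  rw [ArithmeticFunction.vonMangoldt_ne_zero_iff] at h
  obtain ⟨p, k, hp, hk, rfl⟩ := h
  have hp' := Nat.prime_iff.2 hp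
  have hk1 : k ≠ 1 := fun h1 => hn.2 (by rw [h1, pow_one]; exact hp')
  have hk2 : 1 ≤ k / 2 := by omega
  have hm2 : 2 ≤ p ^ (k / 2) := hp'.two_le.trans (Nat.le_self_pow (by omega) p)
  have hmN : p ^ (k / 2) ≤ N := (Nat.pow_le_pow_right hp'.pos (Nat.div_le_self k 2)).trans hn.1.2
  rw [Finset.mem_union, Finset.mem_image, Finset.mem_image]
  rcases Nat.even_or_odd k with he | ho
  · left
    refine ⟨p ^ (k / 2), Finset.mem_Icc.2 ⟨hm2, hmN⟩, ?_⟩
    rw [← pow_mul]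
    congr 1
    obtain ⟨j, hj⟩ := he
    omega
  · right
    refine ⟨p ^ (k / 2), Finset.mem_Icc.2 ⟨hm2, hmN⟩, ?_⟩
    rw [hp'.pow_minFac (by omega), ← pow_mul, ← pow_succ]
    congr 1
    obtain ⟨j, hj⟩ := ho
    omega

theorem log_sq_le {m : ℕ} (hm : 2 ≤ m) : (3 * Real.log m) ^ 2 / (m : ℝ) ^ 2 ≤
    144 * ((m : ℝ) ^ (3 / 2 : ℝ))⁻¹ := by
  have hm0 : (0 : ℝ) < m := by positivity
  have h1 : Real.log m ≤ 4 * (m : ℝ) ^ (1 / 4 : ℝ) := by
    have h2 := Real.add_one_le_exp (Real.log m / 4)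
    rw [Real.rpow_def_of_pos hm0, show Real.log m * (1 / 4) = Real.log m / 4 by ring]
    linarith
  have h0 : 0 ≤ Real.log m := Real.log_natCast_nonneg m
  have h3 : (Real.log m) ^ 2 ≤ 16 * (m : ℝ) ^ (1 / 2 : ℝ) := by
    have h4 : (Real.log m) ^ 2 ≤ (4 * (m : ℝ) ^ (1 / 4 : ℝ)) ^ 2 := pow_le_pow_left₀ h0 h1 2
    refine h4.trans (le_of_eq ?_)
    rw [mul_pow, ← Real.rpow_natCast ((m : ℝ) ^ (1 / 4 : ℝ)) 2, ← Real.rpow_mul hm0.le]
    norm_num
  rw [div_le_iff₀ (by positivity)]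
  have h5 : ((m : ℝ) ^ (3 / 2 : ℝ))⁻¹ * (m : ℝ) ^ 2 = (m : ℝ) ^ (1 / 2 : ℝ) := by
    rw [← Real.rpow_natCast (m : ℝ) 2, ← Real.rpow_neg hm0.le, ← Real.rpow_add hm0]
    norm_num
  rw [mul_assoc, h5, mul_pow]
  linarith

/-- the mean square of the coefficients of the prime powers is bounded -/
theorem exists_npr : ∃ K : ℝ, 0 ≤ K ∧ ∀ N : ℕ,
    ∑ n ∈ npr N, ArithmeticFunction.vonMangoldt n ^ 2 / (n : ℝ) ≤ K := by
  have hsum : Summable (fun m : ℕ => ((m : ℝ) ^ (3 / 2 : ℝ))⁻¹) :=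
    Real.summable_nat_rpow_inv.2 (by norm_num)
  have hnn : ∀ m : ℕ, 0 ≤ ((m : ℝ) ^ (3 / 2 : ℝ))⁻¹ := fun m => by positivity
  obtain ⟨f, hf⟩ : ∃ f : ℕ → ℝ, f = fun n => ArithmeticFunction.vonMangoldt n ^ 2 / (n : ℝ) :=
    ⟨_, rfl⟩
  have hf0 : ∀ n, 0 ≤ f n := fun n => by rw [hf]; positivity
  have hbound : ∀ m n : ℕ, 2 ≤ m → m ^ 2 ≤ n → n ≤ m ^ 3 → f n ≤ 144 * ((m : ℝ) ^ (3 / 2 : ℝ))⁻¹ := by
    intro m n hm h1 h2
    refine le_trans ?_ (log_sq_le hm)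
    rw [hf]
    dsimp only
    have hn0 : 0 < n := lt_of_lt_of_le (by positivity) h1
    have h3 : ArithmeticFunction.vonMangoldt n ≤ 3 * Real.log m := by
      refine ArithmeticFunction.vonMangoldt_le_log.trans ?_
      have h4 : Real.log n ≤ Real.log ((m : ℝ) ^ 3) :=
        Real.log_le_log (by exact_mod_cast hn0) (by exact_mod_cast h2)
      rw [Real.log_pow] at h4
      exact_mod_cast h4
    refine div_le_div₀ (by positivity) (pow_le_pow_left₀ ArithmeticFunction.vonMangoldt_nonneg h3 2)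
      (by positivity) (by exact_mod_cast h1)
  have hT0 : 0 ≤ ∑' m : ℕ, ((m : ℝ) ^ (3 / 2 : ℝ))⁻¹ := tsum_nonneg hnn
  refine ⟨288 * ∑' m : ℕ, ((m : ℝ) ^ (3 / 2 : ℝ))⁻¹, by positivity, fun N => ?_⟩
  have hS : ∑ m ∈ Finset.Icc 2 N, ((m : ℝ) ^ (3 / 2 : ℝ))⁻¹ ≤ ∑' m : ℕ, ((m : ℝ) ^ (3 / 2 : ℝ))⁻¹ :=
    hsum.sum_le_tsum _ (fun m _ => hnn m)
  have h1 : ∑ n ∈ npr N, f n ≤ ∑ n ∈ (Finset.Icc 2 N).image (fun m => m ^ 2) ∪
      (Finset.Icc 2 N).image (fun m => m ^ 2 * m.minFac), f n := by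
    rw [← Finset.sum_filter_add_sum_filter_not (npr N)
      (fun n => ArithmeticFunction.vonMangoldt n ≠ 0)]
    have h2 : ∑ n ∈ (npr N).filter (fun n => ¬ ArithmeticFunction.vonMangoldt n ≠ 0), f n = 0 := by
      refine Finset.sum_eq_zero fun n hn => ?_
      rw [Finset.mem_filter, not_not] at hn
      rw [hf]
      dsimp only
      rw [hn.2]
      simp
    rw [h2, add_zero]
    refine Finset.sum_le_sum_of_subset_of_nonneg (fun n hn => ?_) (fun n _ _ => hf0 n)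
    rw [Finset.mem_filter] at hn
    exact npr_cover hn.1 hn.2
  have himg : ∀ g : ℕ → ℕ, (∀ m, 2 ≤ m → m ^ 2 ≤ g m ∧ g m ≤ m ^ 3) →
      ∑ n ∈ (Finset.Icc 2 N).image g, f n ≤ 144 * ∑' m : ℕ, ((m : ℝ) ^ (3 / 2 : ℝ))⁻¹ := by
    intro g hg
    refine (Finset.sum_image_le_of_nonneg (fun n _ => hf0 n)).trans ?_
    refine le_trans ?_ (mul_le_mul_of_nonneg_left hS (by norm_num))
    rw [Finset.mul_sum]
    refine Finset.sum_le_sum fun m hm => ?_
    rw [Finset.mem_Icc] at hm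
    exact hbound m _ hm.1 (hg m hm.1).1 (hg m hm.1).2
  have h3 := himg (fun m => m ^ 2) (fun m hm => ⟨le_rfl, Nat.pow_le_pow_right (by omega) (by norm_num)⟩)
  have h4 := himg (fun m => m ^ 2 * m.minFac) (fun m hm => ⟨Nat.le_mul_of_pos_right _ (Nat.minFac_pos m), by
    rw [pow_succ m 2]
    exact Nat.mul_le_mul_left _ (Nat.minFac_le (by omega))⟩)
  have h5 := Finset.sum_union_inter (s₁ := (Finset.Icc 2 N).image (fun m => m ^ 2))
    (s₂ := (Finset.Icc 2 N).image (fun m => m ^ 2 * m.minFac)) (f := f)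
  have h6 : 0 ≤ ∑ n ∈ (Finset.Icc 2 N).image (fun m => m ^ 2) ∩
    (Finset.Icc 2 N).image (fun m => m ^ 2 * m.minFac), f n := Finset.sum_nonneg fun n _ => hf0 n
  have h7 : ∑ n ∈ npr N, ArithmeticFunction.vonMangoldt n ^ 2 / (n : ℝ) = ∑ n ∈ npr N, f n := by
    rw [hf]
  rw [h7]
  linarith

end Pool.Agent.H5.GP
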